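import Pool.Agent.helper33.AG.Spec
import Pool.Agent.helper90.QZ.LB
import Pool.Agent.helper2.QZ.CM
import Pool.Agent.helper55.EV.I2
import Pool.Agent.helper53.EV.I1

/-! Row eav:DI (MP_5a4a8e_nt): the integrated differences. -/

set_option autoImplicit false

namespace Pool.Agent.AG

open N1f72dd46 Filter MeasureTheory Set Pool.Agent.QZ

/-- exchange of two interval integrals of a continuous function -/
theorem DI_swap {f : ℝ → ℝ → ℝ} (hf : Continuous (Function.uncurry f)) {a b c d : ℝ} (hab : a ≤ b) (hcd : c ≤ d) :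
    ∫ x in a..b, ∫ y in c..d, f x y = ∫ y in c..d, ∫ x in a..b, f x y := by
  rw [intervalIntegral.integral_of_le hab, intervalIntegral.integral_of_le hcd]
  simp only [intervalIntegral.integral_of_le hab, intervalIntegral.integral_of_le hcd]
  refine integral_integral_swap ?_
  rw [Measure.prod_restrict]
  refine IntegrableOn.mono_set (t := Set.Icc a b ×ˢ Set.Icc c d) ?_
    (Set.prod_mono Set.Ioc_subset_Icc_self Set.Ioc_subset_Icc_self)
  exact hf.continuousOn.integrableOn_compact (isCompact_Icc.prod isCompact_Icc)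

/-- continuity of an interval integral in a parameter -/
theorem DI_cont {f : ℝ → ℝ → ℝ} (hf : Continuous (Function.uncurry f)) (c d : ℝ) :
    Continuous fun x => ∫ y in c..d, f x y :=
  intervalIntegral.continuous_parametric_intervalIntegral_of_continuous' hf c d

/-- the comparison of the sheared integral with the integral over a larger interval -/
theorem DI_shift {g : ℝ → ℝ → ℝ} (hg : Continuous (Function.uncurry g)) (h0 : ∀ y s, 0 ≤ g y s) {Y c d : ℝ}
    (hcd : c ≤ d) {σ : ℝ} (hσ : |σ| ≤ 1) (hc : 0 ≤ c) (hd : d ≤ 1) :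
    ∫ a in Y..(Y + 1), ∫ s in c..d, g (a + σ * s) s ≤ ∫ y in (Y - 1)..(Y + 2), ∫ s in c..d, g y s := by
  have hg1 : Continuous (Function.uncurry fun a s : ℝ => g (a + σ * s) s) := by
    have h1 : Continuous fun z : ℝ × ℝ => (z.1 + σ * z.2, z.2) := by fun_prop
    exact hg.comp h1
  rw [DI_swap hg1 (by linarith) hcd, DI_swap hg (by linarith) hcd]
  have hg2 : Continuous (Function.uncurry fun s y : ℝ => g y s) := hg.comp continuous_swap
  have hg3 : Continuous (Function.uncurry fun s a : ℝ => g (a + σ * s) s) := hg1.comp continuous_swap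
  refine intervalIntegral.integral_mono_on hcd ((DI_cont hg3 _ _).intervalIntegrable _ _)
    ((DI_cont hg2 _ _).intervalIntegrable _ _) fun s hs => ?_
  have hs1 : |σ * s| ≤ 1 := by
    rw [abs_mul]
    have h1 : |s| ≤ 1 := by
      rw [abs_of_nonneg (hc.trans hs.1)]
      exact hs.2.trans hd
    calc |σ| * |s| ≤ 1 * 1 := mul_le_mul hσ h1 (abs_nonneg _) zero_le_one
      _ = 1 := one_mul 1
  obtain ⟨h1, h2⟩ := abs_le.1 hs1
  have hgs : Continuous fun y => g y s := by
    have h3 : Continuous fun y : ℝ => (y, s) := by fun_prop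
    exact hg.comp h3
  have e1 : ∫ a in Y..(Y + 1), g (a + σ * s) s = ∫ y in (Y + σ * s)..(Y + 1 + σ * s), g y s :=
    intervalIntegral.integral_comp_add_right (fun y => g y s) (σ * s)
  rw [e1]
  exact intervalIntegral.integral_mono_interval (by linarith) (by linarith) (by linarith)
    (Eventually.of_forall fun y => h0 y s) (hgs.intervalIntegrable _ _)

theorem DI_Lq {y : ℝ} (hy : 4 ≤ y) {φ : ℝ → ℝ} (hφ : Good 1 (1 / 4) φ) : -(y * (2 * Lam y + 6)) ≤ Lq φ y := by
  have h1 := LB_large (CM (Pool.Agent.EV.I2 Pool.Agent.EV.I1)) le_rfl hφ hy _ rfl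
  have h2 : y * (2 * Lam y + 6) = y * (2 * 1 * ((H ⌊Real.exp (2 * y)⌋₊ : ℝ) - G ⌊Real.exp (2 * y)⌋₊ +
      ⌊Real.exp (2 * y)⌋₊ + 1) / ⌊Real.exp (2 * y)⌋₊ + 6 * 1) := by
    unfold Lam Los
    ring
  rw [h2]
  exact h1

theorem DI (hZC : ZC_stmt) (hOF : OF_stmt) (hLA : LA_stmt) : DI_stmt := by
  intro κ hκ hA ε hε
  obtain ⟨-, hLi, hL3⟩ := hLA
  obtain ⟨-, -, hZc, -⟩ := hZC
  obtain ⟨Y1, hY1⟩ := hL3 κ hκ hA (ε / 2) (by linarith)
  obtain ⟨β, hβ⟩ : ∃ β : ℝ, β = 2 * κ - 2 + ε / 2 := ⟨_, rfl⟩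
  have hβ0 : 0 < β := by
    rw [hβ]
    linarith
  obtain ⟨K, hK⟩ : ∃ K : ℝ, K = 6 * Real.exp β + 18 := ⟨_, rfl⟩
  have hK0 : 0 < K := by
    rw [hK]
    positivity
  refine ⟨max (max 5 (Y1 + 1)) (32 * K / ε ^ 2), fun Y d hY hd hd32 => ?_⟩
  have hYa : 5 ≤ Y := ((le_max_left _ _).trans (le_max_left _ _)).trans hY
  have hYb : Y1 + 1 ≤ Y := ((le_max_right _ _).trans (le_max_left _ _)).trans hY
  have hYc : 32 * K / ε ^ 2 ≤ Y := (le_max_right _ _).trans hY
  obtain ⟨g, hg⟩ : ∃ g : ℝ → ℝ → ℝ, ∀ y s, g y s = max 0 (Z d (y - s) - Z d (y + s)) := ⟨_, fun _ _ => rfl⟩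
  have hgc : Continuous (Function.uncurry g) := by
    have h1 : Function.uncurry g = fun z : ℝ × ℝ => max 0 (Z d (z.1 - z.2) - Z d (z.1 + z.2)) := by
      funext z
      exact hg z.1 z.2
    rw [h1]
    exact continuous_const.max (((hZc d).comp (continuous_fst.sub continuous_snd)).sub
      ((hZc d).comp (continuous_fst.add continuous_snd)))
  have hg0 : ∀ y s, 0 ≤ g y s := fun y s => by
    rw [hg]
    exact le_max_left _ _
  -- the main bound
  have hmain : ∫ y in (Y - 1)..(Y + 2), ∫ s in (2 * d)..(1 / 8), g y s ≤ d * Real.exp ((2 * κ - 2 + ε) * Y) := by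
    have hLint : IntervalIntegrable (fun y => 2 * Lam y + 6) volume (Y - 1) (Y + 2) :=
      ((hLi _ _).const_mul 2).add intervalIntegrable_const
    have hb : ∀ y ∈ Set.Icc (Y - 1) (Y + 2), ∫ s in (2 * d)..(1 / 8), g y s ≤
        2 * d * (Y + 2) * (2 * Lam y + 6) := by
      intro y hy
      have hy4 : 4 ≤ y := by linarith [hy.1]
      have h1 := hOF d y (y * (2 * Lam y + 6)) (1 / 8) hd (by linarith) (by linarith) fun φ hφ => DI_Lq hy4 hφ
      have h2 : ∫ s in (2 * d)..(1 / 8), g y s = ∫ s in (2 * d)..(1 / 8), max 0 (Z d (y - s) - Z d (y + s)) :=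
        intervalIntegral.integral_congr fun s _ => hg y s
      rw [h2]
      refine h1.trans ?_
      have h3 : 0 ≤ 2 * Lam y + 6 := by
        have h4 : 0 ≤ ∫ s in (2 * d)..(1 / 8), max 0 (Z d (y - s) - Z d (y + s)) :=
          intervalIntegral.integral_nonneg (by linarith) fun s _ => le_max_left _ _
        have h5 : 0 ≤ 2 * d * y * (2 * Lam y + 6) := by
          have h6 := h4.trans h1
          linarith [h6, mul_assoc (2 * d) y (2 * Lam y + 6)]
        exact nonneg_of_mul_nonneg_right h5 (by positivity)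
      calc 2 * d * (y * (2 * Lam y + 6)) = 2 * d * y * (2 * Lam y + 6) := by ring
        _ ≤ 2 * d * (Y + 2) * (2 * Lam y + 6) :=
          mul_le_mul_of_nonneg_right (mul_le_mul_of_nonneg_left hy.2 (by positivity)) h3
    have h1 : ∫ y in (Y - 1)..(Y + 2), ∫ s in (2 * d)..(1 / 8), g y s ≤
        ∫ y in (Y - 1)..(Y + 2), 2 * d * (Y + 2) * (2 * Lam y + 6) :=
      intervalIntegral.integral_mono_on (by linarith) ((DI_cont hgc _ _).intervalIntegrable _ _)
        (hLint.const_mul _) hb
    rw [intervalIntegral.integral_const_mul] at h1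
    have h2 : ∫ y in (Y - 1)..(Y + 2), (2 * Lam y + 6) =
        2 * (∫ y in (Y - 1)..(Y + 2), Lam y) + 18 := by
      rw [intervalIntegral.integral_add ((hLi _ _).const_mul 2) intervalIntegrable_const,
        intervalIntegral.integral_const_mul, intervalIntegral.integral_const, smul_eq_mul]
      ring
    have h3 : ∫ y in (Y - 1)..(Y + 2), Lam y ≤ 3 * Real.exp (β * (Y + 1)) := by
      have e1 : ∫ y in (Y - 1)..Y, Lam y ≤ Real.exp (β * (Y + 1)) := by
        have h4 := hY1 (Y - 1) (by linarith)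
        rw [sub_add_cancel] at h4
        refine h4.trans (Real.exp_le_exp.2 ?_)
        rw [← hβ]
        exact mul_le_mul_of_nonneg_left (by linarith) hβ0.le
      have e2 : ∫ y in Y..(Y + 1), Lam y ≤ Real.exp (β * (Y + 1)) := by
        refine (hY1 Y (by linarith)).trans (Real.exp_le_exp.2 ?_)
        rw [← hβ]
        exact mul_le_mul_of_nonneg_left (by linarith) hβ0.le
      have e3 : ∫ y in (Y + 1)..(Y + 2), Lam y ≤ Real.exp (β * (Y + 1)) := by
        have h4 := hY1 (Y + 1) (by linarith)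
        have h5 : Y + 1 + 1 = Y + 2 := by ring
        rw [h5, ← hβ] at h4
        exact h4
      rw [← intervalIntegral.integral_add_adjacent_intervals (hLi (Y - 1) Y) (hLi Y (Y + 2)),
        ← intervalIntegral.integral_add_adjacent_intervals (hLi Y (Y + 1)) (hLi (Y + 1) (Y + 2))]
      linarith
    rw [h2] at h1
    refine h1.trans ?_
    have h4 : 2 * (∫ y in (Y - 1)..(Y + 2), Lam y) + 18 ≤ K * Real.exp (β * Y) := by
      have h5 : Real.exp (β * (Y + 1)) = Real.exp β * Real.exp (β * Y) := by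
        rw [← Real.exp_add]
        congr 1
        ring
      have h6 : 1 ≤ Real.exp (β * Y) := Real.one_le_exp (mul_nonneg hβ0.le (by linarith))
      rw [hK]
      nlinarith
    have h5 : 2 * (Y + 2) * K ≤ Real.exp (ε / 2 * Y) := by
      have h6 : 0 ≤ ε / 2 * Y := mul_nonneg (by linarith) (by linarith)
      have h7 := Real.quadratic_le_exp_of_nonneg h6
      have h8 : 32 * K ≤ Y * ε ^ 2 := by
        rwa [div_le_iff₀ (by positivity)] at hYc
      have h9 : 2 * (Y + 2) * K ≤ (ε / 2 * Y) ^ 2 / 2 := by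
        have h10 : 2 * (Y + 2) * K ≤ 4 * Y * K := by nlinarith
        have h11 : (ε / 2 * Y) ^ 2 / 2 = Y * (Y * ε ^ 2) / 8 := by ring
        rw [h11]
        nlinarith
      linarith
    calc 2 * d * (Y + 2) * (2 * (∫ y in (Y - 1)..(Y + 2), Lam y) + 18)
        ≤ 2 * d * (Y + 2) * (K * Real.exp (β * Y)) := mul_le_mul_of_nonneg_left h4 (by positivity)
      _ = d * (2 * (Y + 2) * K) * Real.exp (β * Y) := by ring
      _ ≤ d * Real.exp (ε / 2 * Y) * Real.exp (β * Y) :=
        mul_le_mul_of_nonneg_right (mul_le_mul_of_nonneg_left h5 hd.le) (Real.exp_pos _).le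
      _ = d * Real.exp ((2 * κ - 2 + ε) * Y) := by
        rw [mul_assoc, ← Real.exp_add]
        congr 2
        rw [hβ]
        ring
  constructor
  · have h1 : ∫ a in Y..(Y + 1), ∫ s in (2 * d)..(1 / 8), max 0 (Z d a - Z d (a + 2 * s)) =
        ∫ a in Y..(Y + 1), ∫ s in (2 * d)..(1 / 8), g (a + 1 * s) s := by
      refine intervalIntegral.integral_congr fun a _ => ?_
      refine intervalIntegral.integral_congr fun s _ => ?_
      rw [hg]
      have e1 : a + 1 * s - s = a := by ring
      have e2 : a + 1 * s + s = a + 2 * s := by ring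
      rw [e1, e2]
    rw [h1]
    exact (DI_shift hgc hg0 (by linarith) (by norm_num) (by linarith) (by norm_num)).trans hmain
  · have h1 : ∫ a in Y..(Y + 1), ∫ s in (2 * d)..(1 / 8), max 0 (Z d (a - 2 * s) - Z d a) =
        ∫ a in Y..(Y + 1), ∫ s in (2 * d)..(1 / 8), g (a + (-1) * s) s := by
      refine intervalIntegral.integral_congr fun a _ => ?_
      refine intervalIntegral.integral_congr fun s _ => ?_
      rw [hg]
      have e1 : a + (-1) * s - s = a - 2 * s := by ring
      have e2 : a + (-1) * s + s = a := by ring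
      rw [e1, e2]
    rw [h1]
    exact (DI_shift hgc hg0 (by linarith) (by norm_num) (by linarith) (by norm_num)).trans hmain

end Pool.Agent.AG
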