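import Pool.Agent.helper33.AG.Spec
import Pool.Agent.helper55.EV.I2
import Pool.Agent.helper53.EV.I1

/-! Row eav:LA (MP_5a4a8e_nt): the normalised loss. -/

set_option autoImplicit false

namespace Pool.Agent.AG

open N1f72dd46 Filter MeasureTheory Set Pool.Agent.QZ

theorem LA_nonneg (n : ℕ) (hn : 1 ≤ n) : 0 ≤ (H n : ℝ) - G n + n + 1 := by
  obtain ⟨a, ha, -, h⟩ := Pool.Agent.EV.I2 Pool.Agent.EV.I1 n hn
  have h1 : 0 ≤ ∑ p ∈ (Finset.Icc 1 (Nat.sqrt n)).filter Nat.Prime, ((n : ℤ) - (a p : ℤ)) := by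
    refine Finset.sum_nonneg fun p _ => ?_
    have h2 : a p ≤ n := by
      rcases ha p with h3 | h3
      · rw [h3]
        exact Nat.zero_le _
      · exact h3.2.2.1
    have h3 : (a p : ℤ) ≤ n := by exact_mod_cast h2
    linarith
  have h2 : (0 : ℤ) ≤ (H n : ℤ) - (G n : ℤ) + n + 1 := h1.trans h
  exact_mod_cast h2

theorem LA_Los (n : ℕ) : 0 ≤ Los n := by
  unfold Los
  rcases Nat.eq_zero_or_pos n with rfl | hn
  · rw [Nat.cast_zero, div_zero]
  · exact div_nonneg (LA_nonneg n hn) (Nat.cast_nonneg n)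

theorem LA_meas : Measurable Lam := by
  have h1 : Measurable fun y : ℝ => ⌊Real.exp (2 * y)⌋₊ :=
    Nat.measurable_floor.comp (Real.measurable_exp.comp (measurable_const.mul measurable_id))
  exact (measurable_from_nat (f := Los)).comp h1

theorem LA_int (a b : ℝ) : IntervalIntegrable Lam volume a b := by
  obtain ⟨N, hN⟩ : ∃ N : ℕ, N = ⌊Real.exp (2 * max a b)⌋₊ := ⟨_, rfl⟩
  obtain ⟨C, hC⟩ : ∃ C : ℝ, C = ∑ n ∈ Finset.range (N + 1), Los n := ⟨_, rfl⟩
  have hb : ∀ y ∈ Set.uIoc a b, ‖Lam y‖ ≤ C := by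
    intro y hy
    have hy1 : y ≤ max a b := by
      rcases Set.mem_uIoc.1 hy with h | h
      · exact h.2.trans (le_max_right _ _)
      · exact h.2.trans (le_max_left _ _)
    have hn : ⌊Real.exp (2 * y)⌋₊ ≤ N := by
      rw [hN]
      exact Nat.floor_le_floor (Real.exp_le_exp.2 (by linarith))
    unfold Lam
    rw [Real.norm_of_nonneg (LA_Los _), hC]
    exact Finset.single_le_sum (f := fun n => Los n) (fun n _ => LA_Los n) (Finset.mem_range.2 (by omega))
  rw [intervalIntegrable_iff]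
  refine Integrable.mono' (g := fun _ => C) ?_ LA_meas.aestronglyMeasurable ?_
  · exact intervalIntegrable_iff.1 intervalIntegrable_const
  · exact (ae_restrict_iff' measurableSet_uIoc).2 (Eventually.of_forall fun y hy => hb y hy)

/-- the integral of the loss over an interval of length one, as a sum -/
theorem LA_sum (Y : ℝ) (hY : 1 ≤ Y) : ∫ y in Y..(Y + 1), Lam y ≤
    2 * Real.exp (-(4 * Y)) * ∑ n ∈ Finset.Icc 1 ⌊Real.exp (2 * Y + 2)⌋₊, ((H n : ℝ) - G n + n + 1) := by
  obtain ⟨N, hN⟩ : ∃ N : ℕ, N = ⌊Real.exp (2 * Y + 2)⌋₊ := ⟨_, rfl⟩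
  obtain ⟨M, hM⟩ : ∃ M : ℕ, M = ⌊Real.exp (2 * Y)⌋₊ := ⟨_, rfl⟩
  rw [← hN]
  have hE0 : 0 < Real.exp (2 * Y) := Real.exp_pos _
  have hE2 : 2 ≤ Real.exp (2 * Y) := by
    have := Real.add_one_le_exp (2 * Y)
    linarith
  have hM1 : Real.exp (2 * Y) < M + 1 := by
    rw [hM]
    exact Nat.lt_floor_add_one _
  have hM2 : Real.exp (2 * Y) / 2 ≤ M := by
    linarith
  have hM0 : (0 : ℝ) < M := by linarith
  have hMN : 1 ≤ M := by
    have : 0 < M := by exact_mod_cast hM0
    omega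
  -- pointwise bound
  have hpt : ∀ y ∈ Set.Icc Y (Y + 1), Lam y ≤ ∑ n ∈ Finset.Icc M N, ((H n : ℝ) - G n + n + 1) / M *
      (Set.Icc (Real.log n / 2) (Real.log (n + 1) / 2)).indicator (fun _ => (1 : ℝ)) y := by
    intro y hy
    obtain ⟨m, hm⟩ : ∃ m : ℕ, m = ⌊Real.exp (2 * y)⌋₊ := ⟨_, rfl⟩
    have h1 : M ≤ m := by
      rw [hM, hm]
      exact Nat.floor_le_floor (Real.exp_le_exp.2 (by linarith [hy.1]))
    have h2 : m ≤ N := by
      rw [hN, hm]
      exact Nat.floor_le_floor (Real.exp_le_exp.2 (by linarith [hy.2]))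
    have hm0 : (0 : ℝ) < m := by
      have : 0 < m := by omega
      exact_mod_cast this
    have h3 : (m : ℝ) ≤ Real.exp (2 * y) := by
      rw [hm]
      exact Nat.floor_le (Real.exp_pos _).le
    have h4 : Real.exp (2 * y) < m + 1 := by
      rw [hm]
      exact Nat.lt_floor_add_one _
    have h5 : y ∈ Set.Icc (Real.log m / 2) (Real.log (m + 1) / 2) := by
      constructor
      · have := (Real.log_le_iff_le_exp hm0).2 h3
        linarith
      · have := (Real.lt_log_iff_exp_lt (by linarith : (0 : ℝ) < m + 1)).2 h4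
        linarith
    have h6 : Lam y ≤ ((H m : ℝ) - G m + m + 1) / M := by
      unfold Lam Los
      rw [← hm]
      exact div_le_div_of_nonneg_left (LA_nonneg m (by omega)) hM0 (by exact_mod_cast h1)
    refine h6.trans ?_
    have h7 : ((H m : ℝ) - G m + m + 1) / M = ((H m : ℝ) - G m + m + 1) / M *
      (Set.Icc (Real.log m / 2) (Real.log (m + 1) / 2)).indicator (fun _ => (1 : ℝ)) y := by
      rw [Set.indicator_of_mem h5, mul_one]
    rw [h7]
    refine Finset.single_le_sum (f := fun n : ℕ => ((H n : ℝ) - G n + n + 1) / M *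
      (Set.Icc (Real.log n / 2) (Real.log (n + 1) / 2)).indicator (fun _ => (1 : ℝ)) y) ?_
      (Finset.mem_Icc.2 ⟨h1, h2⟩)
    intro n hn
    have hn1 : M ≤ n := (Finset.mem_Icc.1 hn).1
    exact mul_nonneg (div_nonneg (LA_nonneg n (by omega)) hM0.le) (Set.indicator_nonneg (fun _ _ => zero_le_one) _)
  have hii : ∀ n : ℕ, IntervalIntegrable (fun y => (Set.Icc (Real.log n / 2) (Real.log (n + 1) / 2)).indicator
      (fun _ => (1 : ℝ)) y) volume Y (Y + 1) := by
    intro n
    rw [intervalIntegrable_iff]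
    exact Integrable.indicator (intervalIntegrable_iff.1 intervalIntegrable_const) measurableSet_Icc
  have hind : ∀ n ∈ Finset.Icc M N, ∫ y in Y..(Y + 1), (Set.Icc (Real.log n / 2) (Real.log (n + 1) / 2)).indicator
      (fun _ => (1 : ℝ)) y ≤ 1 / (2 * M) := by
    intro n hn
    have hn1 : M ≤ n := (Finset.mem_Icc.1 hn).1
    have hn0 : (0 : ℝ) < n := by
      have : 0 < n := by omega
      exact_mod_cast this
    rw [intervalIntegral.integral_of_le (by linarith), integral_indicator measurableSet_Icc, setIntegral_const,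
      smul_eq_mul, mul_one]
    have h1 : (volume.restrict (Set.Ioc Y (Y + 1))).real (Set.Icc (Real.log n / 2) (Real.log (n + 1) / 2)) ≤
        volume.real (Set.Icc (Real.log n / 2) (Real.log (n + 1) / 2)) := by
      refine ENNReal.toReal_mono (by simp) (Measure.restrict_apply_le _ _)
    refine h1.trans ?_
    have h2 : Real.log n ≤ Real.log (n + 1) := Real.log_le_log hn0 (by linarith)
    rw [Real.volume_real_Icc_of_le (by linarith)]
    have h3 : Real.log (n + 1) - Real.log n ≤ 1 / n := by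
      rw [← Real.log_div (by linarith) hn0.ne']
      have h4 := Real.log_le_sub_one_of_pos (show (0 : ℝ) < (n + 1) / n by positivity)
      have h5 : ((n : ℝ) + 1) / n - 1 = 1 / n := by
        field_simp
        ring
      linarith
    have h4 : (1 : ℝ) / n ≤ 1 / M := one_div_le_one_div_of_le hM0 (by exact_mod_cast hn1)
    have h5 : (1 : ℝ) / (2 * M) = 1 / M / 2 := by
      rw [div_div, mul_comm]
    rw [h5]
    linarith
  calc ∫ y in Y..(Y + 1), Lam y ≤ ∫ y in Y..(Y + 1), ∑ n ∈ Finset.Icc M N, ((H n : ℝ) - G n + n + 1) / M *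
      (Set.Icc (Real.log n / 2) (Real.log (n + 1) / 2)).indicator (fun _ => (1 : ℝ)) y := by
        refine intervalIntegral.integral_mono_on (by linarith) (LA_int _ _) ?_ hpt
        have he : (fun y => ∑ n ∈ Finset.Icc M N, ((H n : ℝ) - G n + n + 1) / M *
            (Set.Icc (Real.log n / 2) (Real.log (n + 1) / 2)).indicator (fun _ => (1 : ℝ)) y) =
            ∑ n ∈ Finset.Icc M N, fun y => ((H n : ℝ) - G n + n + 1) / M *
            (Set.Icc (Real.log n / 2) (Real.log (n + 1) / 2)).indicator (fun _ => (1 : ℝ)) y := by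
          funext y
          rw [Finset.sum_apply]
        rw [he]
        exact IntervalIntegrable.sum _ fun n _ => (hii n).const_mul _
    _ = ∑ n ∈ Finset.Icc M N, ((H n : ℝ) - G n + n + 1) / M * ∫ y in Y..(Y + 1),
      (Set.Icc (Real.log n / 2) (Real.log (n + 1) / 2)).indicator (fun _ => (1 : ℝ)) y := by
        rw [intervalIntegral.integral_finsetSum fun n _ => (hii n).const_mul _]
        refine Finset.sum_congr rfl fun n _ => ?_
        rw [intervalIntegral.integral_const_mul]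
    _ ≤ ∑ n ∈ Finset.Icc M N, ((H n : ℝ) - G n + n + 1) / M * (1 / (2 * M)) := by
        refine Finset.sum_le_sum fun n hn => ?_
        have hn1 : M ≤ n := (Finset.mem_Icc.1 hn).1
        exact mul_le_mul_of_nonneg_left (hind n hn) (div_nonneg (LA_nonneg n (by omega)) hM0.le)
    _ = 1 / (2 * (M : ℝ) ^ 2) * ∑ n ∈ Finset.Icc M N, ((H n : ℝ) - G n + n + 1) := by
        rw [Finset.mul_sum]
        refine Finset.sum_congr rfl fun n _ => ?_
        field_simp
    _ ≤ 2 * Real.exp (-(4 * Y)) * ∑ n ∈ Finset.Icc 1 N, ((H n : ℝ) - G n + n + 1) := by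
        have h1 : 1 / (2 * (M : ℝ) ^ 2) ≤ 2 * Real.exp (-(4 * Y)) := by
          have h2 : Real.exp (-(4 * Y)) = 1 / Real.exp (2 * Y) ^ 2 := by
            rw [Real.exp_neg, one_div, ← Real.exp_nat_mul]
            congr 2
            push_cast
            ring
          rw [h2]
          have h3 : Real.exp (2 * Y) ^ 2 / 4 ≤ (M : ℝ) ^ 2 := by
            calc Real.exp (2 * Y) ^ 2 / 4 = (Real.exp (2 * Y) / 2) ^ 2 := by ring
              _ ≤ (M : ℝ) ^ 2 := pow_le_pow_left₀ (by positivity) hM2 2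
          rw [div_le_iff₀ (by positivity)]
          have h4 : 2 * (1 / Real.exp (2 * Y) ^ 2) * (2 * (M : ℝ) ^ 2) = (M : ℝ) ^ 2 / (Real.exp (2 * Y) ^ 2 / 4) := by
            field_simp
            ring
          rw [h4]
          exact (one_le_div (by positivity)).2 h3
        refine mul_le_mul h1 ?_ ?_ (by positivity)
        · refine Finset.sum_le_sum_of_subset_of_nonneg (Finset.Icc_subset_Icc_left hMN) ?_
          intro n hn _
          exact LA_nonneg n (Finset.mem_Icc.1 hn).1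
        · refine Finset.sum_nonneg fun n hn => LA_nonneg n ?_
          have hn1 : M ≤ n := (Finset.mem_Icc.1 hn).1
          omega

theorem LA : LA_stmt := by
  refine ⟨fun y _ => LA_Los _, LA_int, fun κ hκ hA ε hε => ?_⟩
  have hA' := hA (ε / 4) (by linarith)
  obtain ⟨N0, hN0⟩ := eventually_atTop.1 hA'
  obtain ⟨c0, hc0⟩ : ∃ c0 : ℝ, c0 = |(H 0 : ℝ) - G 0 + (0 : ℕ) + 1| := ⟨_, rfl⟩
  have hc00 : 0 ≤ c0 := by
    rw [hc0]
    exact abs_nonneg _
  obtain ⟨K, hK⟩ : ∃ K : ℝ, K = 2 * Real.exp (2 * (1 + κ + ε / 4)) + 8 * Real.exp 4 + 2 * c0 := ⟨_, rfl⟩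
  have hK0 : 0 < K := by
    rw [hK]
    positivity
  refine ⟨max (max 1 N0) (2 / ε * Real.log K), fun Y hY => ?_⟩
  have hY1 : 1 ≤ Y := ((le_max_left _ _).trans (le_max_left _ _)).trans hY
  have hY2 : (N0 : ℝ) ≤ Y := ((le_max_right _ _).trans (le_max_left _ _)).trans hY
  have hY3 : 2 / ε * Real.log K ≤ Y := (le_max_right _ _).trans hY
  refine (LA_sum Y hY1).trans ?_
  obtain ⟨N, hN⟩ : ∃ N : ℕ, N = ⌊Real.exp (2 * Y + 2)⌋₊ := ⟨_, rfl⟩
  rw [← hN]
  have hNle : (N : ℝ) ≤ Real.exp (2 * Y + 2) := by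
    rw [hN]
    exact Nat.floor_le (Real.exp_pos _).le
  have hNge : N0 ≤ N := by
    rw [hN]
    refine Nat.le_floor ?_
    have := Real.add_one_le_exp (2 * Y + 2)
    linarith
  have hN1 : (1 : ℝ) ≤ Real.exp (2 * Y + 2) := Real.one_le_exp (by linarith)
  have h1 := hN0 N hNge
  have h2 : ∑ n ∈ Finset.Icc 1 N, ((H n : ℝ) - G n + n + 1) ≤
      (N : ℝ) ^ (1 + κ + ε / 4) + ((N : ℝ) + 1) ^ 2 + c0 := by
    have h3 : ∑ n ∈ Finset.range (N + 1), ((H n : ℝ) - G n + n + 1) =
        ((H 0 : ℝ) - G 0 + (0 : ℕ) + 1) + ∑ n ∈ Finset.Icc 1 N, ((H n : ℝ) - G n + n + 1) := by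
      rw [Finset.range_eq_Ico, Finset.sum_eq_sum_Ico_succ_bot (Nat.succ_pos N)]
      rfl
    have h4 : ∑ n ∈ Finset.range (N + 1), ((H n : ℝ) - G n + n + 1) =
        ∑ n ∈ Finset.range (N + 1), ((H n : ℝ) - G n) + ∑ n ∈ Finset.range (N + 1), ((n : ℝ) + 1) := by
      rw [← Finset.sum_add_distrib]
      refine Finset.sum_congr rfl fun n _ => ?_
      ring
    have h5 : ∑ n ∈ Finset.range (N + 1), ((n : ℝ) + 1) ≤ ((N : ℝ) + 1) ^ 2 := by
      calc ∑ n ∈ Finset.range (N + 1), ((n : ℝ) + 1) ≤ ∑ _n ∈ Finset.range (N + 1), ((N : ℝ) + 1) := by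
            refine Finset.sum_le_sum fun n hn => ?_
            have h6 : n ≤ N := by
              have := Finset.mem_range.1 hn
              omega
            have h7 : (n : ℝ) ≤ N := by exact_mod_cast h6
            linarith
        _ = ((N : ℝ) + 1) ^ 2 := by
            rw [Finset.sum_const, Finset.card_range, nsmul_eq_mul]
            push_cast
            ring
    have h6 : -((H 0 : ℝ) - G 0 + (0 : ℕ) + 1) ≤ c0 := by
      rw [hc0]
      exact neg_le_abs _
    linarith
  have e1 : (N : ℝ) ^ (1 + κ + ε / 4) ≤ Real.exp ((2 * Y + 2) * (1 + κ + ε / 4)) := by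
    rw [Real.exp_mul]
    exact Real.rpow_le_rpow (Nat.cast_nonneg N) hNle (by linarith)
  have e2 : ((N : ℝ) + 1) ^ 2 ≤ 4 * Real.exp (4 * Y + 4) := by
    calc ((N : ℝ) + 1) ^ 2 ≤ (2 * Real.exp (2 * Y + 2)) ^ 2 := pow_le_pow_left₀ (by positivity) (by linarith) 2
      _ = 4 * Real.exp (2 * Y + 2) ^ 2 := by ring
      _ = 4 * Real.exp (4 * Y + 4) := by
        rw [← Real.exp_nat_mul]
        congr 2
        push_cast
        ring
  have hβ : 0 ≤ (2 * κ - 2 + ε / 2) * Y := by
    refine mul_nonneg (by linarith) (by linarith)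
  have hβ1 : 1 ≤ Real.exp ((2 * κ - 2 + ε / 2) * Y) := Real.one_le_exp hβ
  calc 2 * Real.exp (-(4 * Y)) * ∑ n ∈ Finset.Icc 1 N, ((H n : ℝ) - G n + n + 1)
      ≤ 2 * Real.exp (-(4 * Y)) * (Real.exp ((2 * Y + 2) * (1 + κ + ε / 4)) + 4 * Real.exp (4 * Y + 4) + c0) := by
        refine mul_le_mul_of_nonneg_left ?_ (by positivity)
        linarith
    _ = 2 * Real.exp (2 * (1 + κ + ε / 4)) * Real.exp ((2 * κ - 2 + ε / 2) * Y) + 8 * Real.exp 4 +
        2 * c0 * Real.exp (-(4 * Y)) := by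
        have h3 : Real.exp (-(4 * Y)) * Real.exp ((2 * Y + 2) * (1 + κ + ε / 4)) =
            Real.exp (2 * (1 + κ + ε / 4)) * Real.exp ((2 * κ - 2 + ε / 2) * Y) := by
          rw [← Real.exp_add, ← Real.exp_add]
          congr 1
          ring
        have h4 : Real.exp (-(4 * Y)) * Real.exp (4 * Y + 4) = Real.exp 4 := by
          rw [← Real.exp_add]
          congr 1
          ring
        linear_combination 2 * h3 + 8 * h4
    _ ≤ 2 * Real.exp (2 * (1 + κ + ε / 4)) * Real.exp ((2 * κ - 2 + ε / 2) * Y) +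
        8 * Real.exp 4 * Real.exp ((2 * κ - 2 + ε / 2) * Y) + 2 * c0 * Real.exp ((2 * κ - 2 + ε / 2) * Y) := by
        have h3 : Real.exp (-(4 * Y)) ≤ 1 := by
          rw [Real.exp_le_one_iff]
          linarith
        have h4 : 8 * Real.exp 4 ≤ 8 * Real.exp 4 * Real.exp ((2 * κ - 2 + ε / 2) * Y) :=
          le_mul_of_one_le_right (by positivity) hβ1
        have h5 : 2 * c0 * Real.exp (-(4 * Y)) ≤ 2 * c0 * Real.exp ((2 * κ - 2 + ε / 2) * Y) :=
          mul_le_mul_of_nonneg_left (h3.trans hβ1) (by positivity)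
        linarith
    _ = K * Real.exp ((2 * κ - 2 + ε / 2) * Y) := by
        rw [hK]
        ring
    _ ≤ Real.exp (ε / 2 * Y) * Real.exp ((2 * κ - 2 + ε / 2) * Y) := by
        refine mul_le_mul_of_nonneg_right ?_ (Real.exp_pos _).le
        rw [← Real.log_le_iff_le_exp hK0]
        have h3 : ε / 2 * (2 / ε * Real.log K) ≤ ε / 2 * Y := mul_le_mul_of_nonneg_left hY3 (by linarith)
        have h4 : ε / 2 * (2 / ε * Real.log K) = Real.log K := by
          field_simp
        linarith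
    _ = Real.exp ((2 * κ - 2 + ε) * Y) := by
        rw [← Real.exp_add]
        congr 1
        ring

end Pool.Agent.AG
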