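import Pool.Agent.helper69.AD.GS4
import Pool.Agent.helper29.AG.BD1
import Pool.Agent.helper13.AG.BD2

/-!
Module CLL of the project ad (MP_a29257_gt): the hexagons connected to a given one reach all
leaves of the plaque.

The cross ratio of two sides of a hexagon takes only three values on the connected hexagons.
If the leaf `s` is not reached, one descends through hexagons, two sides of which enclose `s`;
in a chart the sides that replace each other have a width bounded from below, so the gap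
that contains `s` becomes negative.
-/

open scoped MatrixGroups LinearAlgebra.Projectivization
open Matrix UpperHalfPlane

namespace AdSBend

noncomputable section

open LeafSystem

/-- cross ratio of two leaves -/
def CLL_X (u v : Bd × Bd) : ℝ :=
  dt v.1.rep u.2.rep * dt v.2.rep u.1.rep / (dt u.1.rep u.2.rep * dt v.1.rep v.2.rep)

theorem CLL_X_mk (a b c d : Fin 2 → ℝ) (ha : a ≠ 0) (hb : b ≠ 0) (hc : c ≠ 0) (hd : d ≠ 0) :
    CLL_X (Projectivization.mk ℝ a ha, Projectivization.mk ℝ b hb)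
      (Projectivization.mk ℝ c hc, Projectivization.mk ℝ d hd)
      = dt c b * dt d a / (dt a b * dt c d) := by
  obtain ⟨α, hα⟩ := Projectivization.exists_smul_eq_mk_rep ℝ a ha
  obtain ⟨β, hβ⟩ := Projectivization.exists_smul_eq_mk_rep ℝ b hb
  obtain ⟨γ, hγ⟩ := Projectivization.exists_smul_eq_mk_rep ℝ c hc
  obtain ⟨δ, hδ⟩ := Projectivization.exists_smul_eq_mk_rep ℝ d hd
  unfold CLL_X
  dsimp only
  rw [← hα, ← hβ, ← hγ, ← hδ, Units.smul_def, Units.smul_def, Units.smul_def, Units.smul_def,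
    BD1_smul, BD1_smul, BD1_smul, BD1_smul]
  have hne : (α : ℝ) * β * γ * δ ≠ 0 :=
    mul_ne_zero (mul_ne_zero (mul_ne_zero α.ne_zero β.ne_zero) γ.ne_zero) δ.ne_zero
  rw [show (γ : ℝ) * β * dt c b * ((δ : ℝ) * α * dt d a)
      = ((α : ℝ) * β * γ * δ) * (dt c b * dt d a) by ring,
    show (α : ℝ) * β * dt a b * ((γ : ℝ) * δ * dt c d)
      = ((α : ℝ) * β * γ * δ) * (dt a b * dt c d) by ring,
    mul_div_mul_left _ _ hne]

theorem CLL_X_symm (u v : Bd × Bd) : CLL_X v u = CLL_X u v := by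
  unfold CLL_X dt
  ring

theorem CLL_X_ga (g : SL(2, ℝ)) (u v : Bd × Bd) : CLL_X (ga g u) (ga g v) = CLL_X u v := by
  obtain ⟨a, b⟩ := u
  obtain ⟨c, d⟩ := v
  induction a using Projectivization.ind with | _ a ha =>
  induction b using Projectivization.ind with | _ b hb =>
  induction c using Projectivization.ind with | _ c hc =>
  induction d using Projectivization.ind with | _ d hd =>
  unfold ga
  dsimp only
  rw [Projectivization.smul_mk, Projectivization.smul_mk, Projectivization.smul_mk,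
    Projectivization.smul_mk, CLL_X_mk, CLL_X_mk, BD2_dt_smul, BD2_dt_smul, BD2_dt_smul,
    BD2_dt_smul]

theorem CLL_X_pt (F : SL(2, ℝ)) (a b c d : ℝ) :
    CLL_X (F • bPt a, F • bPt b) (F • bPt c, F • bPt d)
      = (c - b) * (d - a) / ((a - b) * (c - d)) := by
  have h := CLL_X_ga F (bPt a, bPt b) (bPt c, bPt d)
  unfold ga at h
  dsimp only at h
  rw [h]
  unfold bPt
  rw [CLL_X_mk]
  simp [dt]

/-- all three cross ratios of a hexagon are at most `X` -/
def CLL_V (X : ℝ) (h : (Bd × Bd) × (Bd × Bd) × (Bd × Bd)) : Prop :=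
  CLL_X h.1 h.2.1 ≤ X ∧ CLL_X h.2.1 h.2.2 ≤ X ∧ CLL_X h.2.2 h.1 ≤ X

theorem CLL_inv_fix {g : SL(2, ℝ)} {p : Bd × Bd} (h : Attracts g p) :
    ga g p = p ∧ ga g⁻¹ p = p := by
  obtain ⟨-, h1, h2, -⟩ := h
  constructor
  · unfold ga
    rw [h1, h2]
  · unfold ga
    rw [inv_smul_eq_iff.2 h1.symm, inv_smul_eq_iff.2 h2.symm]

theorem CLL_step (hGM1 : GM1_stmt) (hHX1 : HX1_stmt) {Γ : Subgroup SL(2, ℝ)}
    (hΓ : IsClosedSurfaceGroup Γ) (S : LeafSystem Γ) (X : ℝ) (a b c : Bd × Bd)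
    (hex : S.Hex a b c) (hV : CLL_V X (a, b, c)) (h' : (Bd × Bd) × (Bd × Bd) × (Bd × Bd))
    (hm : HexMove Γ (a, b, c) h') : CLL_V X h' := by
  obtain ⟨hrot, -, -, -, -, hrel, -⟩ := hHX1 Γ hΓ S
  obtain ⟨v1, v2, v3⟩ := hV
  dsimp only at v1 v2 v3
  have fa : ga (gen Γ a) a = a ∧ ga (gen Γ a)⁻¹ a = a :=
    CLL_inv_fix (hGM1 Γ hΓ a (S.closed a hex.1.1)).2.1
  have fc : ga (gen Γ c) c = c ∧ ga (gen Γ c)⁻¹ c = c :=
    CLL_inv_fix (hGM1 Γ hΓ c (S.closed c hex.2.2.1.1)).2.1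
  have hr : ga (gen Γ c)⁻¹ b = ga (gen Γ a) b := hrel b c a (hrot _ _ _ hex)
  have e1 : CLL_X c (ga (gen Γ a) b) = CLL_X b c := by
    have h := CLL_X_ga (gen Γ c)⁻¹ c b
    rw [fc.2, hr] at h
    rw [h, CLL_X_symm]
  have e2 : CLL_X (ga (gen Γ a) b) a = CLL_X a b := by
    have h := CLL_X_ga (gen Γ a) b a
    rw [fa.1] at h
    rw [h, CLL_X_symm]
  have e3 : CLL_X a (ga (gen Γ a)⁻¹ c) = CLL_X c a := by
    have h := CLL_X_ga (gen Γ a)⁻¹ a c
    rw [fa.2] at h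
    rw [h, CLL_X_symm]
  have e4 : CLL_X (ga (gen Γ a)⁻¹ c) b = CLL_X b c := by
    have h := CLL_X_ga (gen Γ a) (ga (gen Γ a)⁻¹ c) b
    have h2 : ga (gen Γ a) (ga (gen Γ a)⁻¹ c) = c := by
      unfold ga
      dsimp only
      rw [smul_inv_smul, smul_inv_smul]
    rw [h2, e1] at h
    exact h.symm
  rcases hm with hm | hm | hm
  · rw [hm]
    exact ⟨v2, v3, v1⟩
  · rw [hm]
    refine ⟨?_, ?_, ?_⟩
    · change CLL_X a c ≤ X
      rw [CLL_X_symm]; exact v3
    · change CLL_X c (ga (gen Γ a) b) ≤ X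
      rw [e1]; exact v2
    · change CLL_X (ga (gen Γ a) b) a ≤ X
      rw [e2]; exact v1
  · rw [hm]
    refine ⟨?_, ?_, ?_⟩
    · change CLL_X a (ga (gen Γ a)⁻¹ c) ≤ X
      rw [e3]; exact v3
    · change CLL_X (ga (gen Γ a)⁻¹ c) b ≤ X
      rw [e4]; exact v2
    · change CLL_X b a ≤ X
      rw [CLL_X_symm]; exact v1

theorem CLL_conn (hGM1 : GM1_stmt) (hHX1 : HX1_stmt) {Γ : Subgroup SL(2, ℝ)}
    (hΓ : IsClosedSurfaceGroup Γ) (S : LeafSystem Γ) (X : ℝ) (p q r : Bd × Bd)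
    (hex : S.Hex p q r) (hV : CLL_V X (p, q, r)) (h' : (Bd × Bd) × (Bd × Bd) × (Bd × Bd))
    (hc : HexConn Γ (p, q, r) h') : CLL_V X h' := by
  obtain ⟨-, -, -, -, -, -, hconn⟩ := hHX1 Γ hΓ S
  unfold HexConn at hc
  induction hc with
  | refl => exact hV
  | tail h1 h2 ih =>
    rename_i b c
    obtain ⟨b1, b2, b3⟩ := b
    exact CLL_step hGM1 hHX1 hΓ S X b1 b2 b3 (hconn _ _ _ _ _ _ hex h1).1 ih c h2

/-- width of the two leaves -/
theorem CLL_width {X σ L a1 a2 b1 b2 s1 s2 P Q : ℝ} (hX : 0 < X) (hσ : σ = s2 - s1)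
    (hL : L = Q - P) (hs : s1 < s2) (h1 : P ≤ a1) (h2 : a1 < a2) (h3 : a2 < s1) (h4 : s2 < b1)
    (h5 : b1 < b2) (h6 : b2 ≤ Q)
    (hv : (b1 - a2) * (b2 - a1) / ((a1 - a2) * (b1 - b2)) ≤ X) :
    σ ^ 2 / (X * L) ≤ a2 - a1 ∧ σ ^ 2 / (X * L) ≤ b2 - b1 := by
  have hD : 0 < (a1 - a2) * (b1 - b2) := mul_pos_of_neg_of_neg (by linarith) (by linarith)
  rw [div_le_iff₀ hD] at hv
  have hσ0 : 0 < σ := by rw [hσ]; linarith
  have hL0 : 0 < L := by rw [hL]; linarith
  have h7 : σ ^ 2 ≤ (b1 - a2) * (b2 - a1) := by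
    rw [sq]
    exact mul_le_mul (by rw [hσ]; linarith) (by rw [hσ]; linarith) hσ0.le (by linarith)
  have h8 : σ ^ 2 ≤ X * ((a2 - a1) * (b2 - b1)) := by
    have : (a1 - a2) * (b1 - b2) = (a2 - a1) * (b2 - b1) := by ring
    rw [this] at hv
    exact h7.trans hv
  have hw1 : 0 < a2 - a1 := by linarith
  have hw2 : 0 < b2 - b1 := by linarith
  have hw3 : a2 - a1 ≤ L := by rw [hL]; linarith
  have hw4 : b2 - b1 ≤ L := by rw [hL]; linarith
  constructor
  · rw [div_le_iff₀ (by positivity)]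
    calc σ ^ 2 ≤ X * ((a2 - a1) * (b2 - b1)) := h8
      _ ≤ X * ((a2 - a1) * L) := by gcongr
      _ = _ := by ring
  · rw [div_le_iff₀ (by positivity)]
    calc σ ^ 2 ≤ X * ((a2 - a1) * (b2 - b1)) := h8
      _ ≤ X * (L * (b2 - b1)) := by gcongr
      _ = _ := by ring

theorem CLL_main (hBD2 : BD2_stmt) (hBD4 : BD4_stmt) (hBD6 : BD6_stmt) (hBD7 : BD7_stmt)
    (hGM1 : GM1_stmt) (hPN2 : PN2_stmt) (hHX1 : HX1_stmt) {Γ : Subgroup SL(2, ℝ)}
    (hΓ : IsClosedSurfaceGroup Γ) (S : LeafSystem Γ) (p q r s : Bd × Bd)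
    (hex : S.Hex p q r) (hps : S.CoPl p s) (hqs : S.CoPl q s) (hrs : S.CoPl r s)
    (hpos : Cyc p.1 s.1 q.1) (hno : ∀ u v, ¬ HexConn Γ (p, q, r) (s, u, v)) : False := by
  obtain ⟨hdist, hrotc, -, -, -, -⟩ := hBD4
  obtain ⟨hsymm, -, htrans⟩ := hPN2 Γ hΓ S
  obtain ⟨hrotH, -, -, -, -, -, hconnH⟩ := hHX1 Γ hΓ S
  -- the chart
  have hr12 : r.1 ≠ r.2 := (S.closed r hex.2.1.2.1).1
  obtain ⟨F, hF⟩ := hBD6.1 r hr12
  obtain ⟨hF1, -⟩ := hF
  obtain ⟨-, -, -, -, hcycP, hcycI, -, -, hall⟩ := hBD7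
  have cyc3 : ∀ a b c : ℝ, Cyc (F • bPt a) (F • bPt b) (F • bPt c) ↔
      (a < b ∧ b < c) ∨ (b < c ∧ c < a) ∨ (c < a ∧ a < b) := fun a b c => by
    rw [hBD2, hcycP]
  have cycI : ∀ a b : ℝ, Cyc r.1 (F • bPt a) (F • bPt b) ↔ a < b := fun a b => by
    rw [← hF1, hBD2, hcycI]
  have hex1 : ∀ x : Bd, x ≠ r.1 → ∃ t, x = F • bPt t := by
    intro x hx
    rcases hall (F⁻¹ • x) with h | ⟨t, h⟩
    · exfalso
      apply hx
      rw [← hF1, ← h, smul_inv_smul]
    · exact ⟨t, by rw [← h, smul_inv_smul]⟩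
  -- leaves facing `r`
  have hface : ∀ u, Facing r u → ∃ u1 u2 : ℝ, u = (F • bPt u1, F • bPt u2) ∧ u1 < u2 := by
    intro u hu
    have h1 := hdist _ _ _ hu.2
    obtain ⟨u1, e1⟩ := hex1 u.1 h1.1.symm
    obtain ⟨u2, e2⟩ := hex1 u.2 h1.2.2
    refine ⟨u1, u2, Prod.ext e1 e2, ?_⟩
    have h2 := hu.2
    rw [e1, e2, cycI] at h2
    exact h2
  obtain ⟨p1, p2, hp, hp12⟩ := hface p hex.2.2.1.2.2.1
  obtain ⟨q1, q2, hq, hq12⟩ := hface q (hsymm _ _ hex.2.1).2.2.1
  obtain ⟨s1, s2, hs, hs12⟩ := hface s hrs.2.2.1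
  have hpq1 : p1 < q1 := by
    have h := hrotc _ _ _ (hrotc _ _ _ hex.2.2.2.1)
    rw [hp, hq] at h
    exact (cycI _ _).1 h
  have hp1s1 : p1 < s1 ∧ s1 < q1 := by
    have h := hpos
    rw [hp, hs, hq] at h
    rcases (cyc3 _ _ _).1 h with h | h | h
    · exact h
    · linarith [h.1, h.2]
    · linarith [h.1, h.2]
  have hp2s1 : p2 < s1 := by
    have h := hps.2.2.1.1
    rw [hp, hs] at h
    rcases (cyc3 _ _ _).1 h with h | h | h
    · exact h.2
    · linarith [h.1, h.2]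
    · linarith [h.1, h.2]
  have hs2q1 : s2 < q1 := by
    have h := hqs.2.2.1.2
    rw [hq, hs] at h
    rcases (cyc3 _ _ _).1 h with h | h | h
    · linarith [h.1, h.2]
    · exact h.2
    · linarith [h.1, h.2]
  -- the bound for the cross ratios
  set X : ℝ := |CLL_X p q| + |CLL_X q r| + |CLL_X r p| + 1 with hXdef
  have hX : 0 < X := by positivity
  have hV : CLL_V X (p, q, r) := by
    refine ⟨?_, ?_, ?_⟩
    · change CLL_X p q ≤ X
      have := le_abs_self (CLL_X p q)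
      have := abs_nonneg (CLL_X q r)
      have := abs_nonneg (CLL_X r p)
      linarith
    · change CLL_X q r ≤ X
      have := le_abs_self (CLL_X q r)
      have := abs_nonneg (CLL_X p q)
      have := abs_nonneg (CLL_X r p)
      linarith
    · change CLL_X r p ≤ X
      have := le_abs_self (CLL_X r p)
      have := abs_nonneg (CLL_X p q)
      have := abs_nonneg (CLL_X q r)
      linarith
  set δ : ℝ := (s2 - s1) ^ 2 / (X * (q2 - p1)) with hδdef
  have hδ : 0 < δ := by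
    have h1 : 0 < s2 - s1 := by linarith
    have h2 : 0 < q2 - p1 := by linarith
    positivity
  -- width of the sides that enclose `s`
  have hwidth : ∀ (a b c : Bd × Bd) (a1 a2 b1 b2 : ℝ), HexConn Γ (p, q, r) (a, b, c) →
      a = (F • bPt a1, F • bPt a2) → b = (F • bPt b1, F • bPt b2) → p1 ≤ a1 → a1 < a2 →
      a2 < s1 → s2 < b1 → b1 < b2 → b2 ≤ q2 → δ ≤ a2 - a1 ∧ δ ≤ b2 - b1 := by
    intro a b c a1 a2 b1 b2 hc ha hb h1 h2 h3 h4 h5 h6
    have hv := (CLL_conn hGM1 hHX1 hΓ S X p q r hex hV _ hc).1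
    dsimp only at hv
    rw [ha, hb, CLL_X_pt] at hv
    exact CLL_width hX rfl rfl hs12 h1 h2 h3 h4 h5 h6 hv
  -- descent
  have hdesc : ∀ n : ℕ, ∃ (a b c : Bd × Bd) (a1 a2 b1 b2 : ℝ),
      HexConn Γ (p, q, r) (a, b, c) ∧ a = (F • bPt a1, F • bPt a2) ∧
      b = (F • bPt b1, F • bPt b2) ∧ p1 ≤ a1 ∧ a1 < a2 ∧ a2 < s1 ∧ s2 < b1 ∧ b1 < b2 ∧
      b2 ≤ q2 ∧ b1 - a2 ≤ (q1 - p2) - n * δ := by
    intro n
    induction n with
    | zero =>
      refine ⟨p, q, r, p1, p2, q1, q2, Relation.ReflTransGen.refl, hp, hq, le_refl _, hp12,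
        hp2s1, hs2q1, hq12, le_refl _, ?_⟩
      simp
    | succ n ih =>
      obtain ⟨a, b, c, a1, a2, b1, b2, hc, ha, hb, h1, h2, h3, h4, h5, h6, h7⟩ := ih
      -- the hexagon beyond the seam
      have m1 : HexMove Γ (a, b, c) (b, c, a) := Or.inl rfl
      have m2 : HexMove Γ (b, c, a) (b, a, ga (gen Γ b) c) := Or.inr (Or.inl rfl)
      have m3 : HexMove Γ (b, a, ga (gen Γ b) c) (a, ga (gen Γ b) c, b) := Or.inl rfl
      set w := ga (gen Γ b) c with hw
      have m4 : HexMove Γ (a, w, b) (w, b, a) := Or.inl rfl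
      have c3 : HexConn Γ (p, q, r) (a, w, b) := ((hc.tail m1).tail m2).tail m3
      have c4 : HexConn Γ (p, q, r) (w, b, a) := c3.tail m4
      obtain ⟨hH3, -⟩ := hconnH _ _ _ _ _ _ hex c3
      obtain ⟨hH4, hw4⟩ := hconnH _ _ _ _ _ _ hex c4
      -- coordinates of `w`
      have hawb : Cyc a.1 w.1 b.1 := hH3.2.2.2.1
      have hw1r : w.1 ≠ r.1 := by
        intro h
        rw [h] at hawb
        have h8 := hrotc _ _ _ hawb
        rw [hb, ha] at h8
        have := (cycI _ _).1 h8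
        linarith
      obtain ⟨w1, ew1⟩ := hex1 w.1 hw1r
      have hw1 : a1 < w1 ∧ w1 < b1 := by
        have h8 := hawb
        rw [ew1, hb, ha] at h8
        rcases (cyc3 _ _ _).1 h8 with h | h | h
        · exact h
        · linarith [h.1, h.2]
        · linarith [h.1, h.2]
      have hwb : Facing w b := hH3.2.1.2.2.1
      have hw2r : w.2 ≠ r.1 := by
        intro h
        have h8 := hwb.1
        rw [h] at h8
        have h9 := hrotc _ _ _ h8
        rw [hb, ew1] at h9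
        have := (cycI _ _).1 h9
        linarith
      obtain ⟨w2, ew2⟩ := hex1 w.2 hw2r
      have hw2 : w1 < w2 ∧ w2 < b1 := by
        have h8 := hwb.1
        rw [ew1, ew2, hb] at h8
        rcases (cyc3 _ _ _).1 h8 with h | h | h
        · exact h
        · linarith [h.1, h.2]
        · linarith [h.1, h.2]
      have hwe : w = (F • bPt w1, F • bPt w2) := Prod.ext ew1 ew2
      have haw : Facing a w := hH3.1.2.2.1
      have ha2w1 : a2 < w1 := by
        have h8 := haw.1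
        rw [ha, ew1] at h8
        rcases (cyc3 _ _ _).1 h8 with h | h | h
        · exact h.2
        · linarith [h.1, h.2]
        · linarith [h.1, h.2]
      -- position of `s` and `w`
      have hsw : w ≠ s := by
        intro h
        rw [h] at c4
        exact hno _ _ c4
      have hcws : S.CoPl w s := by
        rcases hw4 with h | h
        · rw [h]; exact hps
        · exact htrans _ _ _ h hps hsw
      have hfws := hcws.2.2.1
      have f1 := hfws.1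
      have f2 := hfws.2
      rw [ew1, ew2, hs] at f1
      rw [ew1, hs] at f2
      have f1' := (cyc3 _ _ _).1 f1
      have f2' := (cyc3 _ _ _).1 f2
      rcases lt_or_ge w1 s1 with hlt | hge
      · have hw2s1 : w2 < s1 := by
          rcases f1' with h | h | h
          · exact h.2
          · linarith [h.1, h.2]
          · linarith [h.1, h.2]
        have hwd := hwidth w b a w1 w2 b1 b2 c4 hwe hb (by linarith) hw2.1 hw2s1 h4 h5 h6
        refine ⟨w, b, a, w1, w2, b1, b2, c4, hwe, hb, by linarith, hw2.1, hw2s1, h4, h5, h6, ?_⟩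
        push_cast
        linarith [hwd.1]
      · have hs2w1 : s2 < w1 := by
          rcases f2' with h | h | h
          · linarith [h.1, h.2]
          · exact h.2
          · linarith [h.1, h.2]
        have hwd := hwidth a w b a1 a2 w1 w2 c3 ha hwe h1 h2 h3 hs2w1 hw2.1 (by linarith)
        refine ⟨a, w, b, a1, a2, w1, w2, c3, ha, hwe, h1, h2, h3, hs2w1, hw2.1, by linarith, ?_⟩
        push_cast
        linarith [hwd.2]
  obtain ⟨n, hn⟩ := exists_nat_gt ((q1 - p2) / δ)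
  rw [div_lt_iff₀ hδ] at hn
  obtain ⟨a, b, c, a1, a2, b1, b2, -, -, -, -, -, h3, h4, -, -, h7⟩ := hdesc n
  linarith

/-- CLL: the hexagons connected to a given one reach all leaves of the plaque -/
theorem CLL (hBD2 : BD2_stmt) (hBD3 : BD3_stmt) (hBD4 : BD4_stmt) (hBD6 : BD6_stmt)
    (hBD7 : BD7_stmt) (hGM1 : GM1_stmt) (hPN2 : PN2_stmt) (hHX1 : HX1_stmt) : CLL_stmt := by
  intro Γ hΓ S p q r hex s hps
  by_contra hcon
  push Not at hcon
  obtain ⟨hdist, hrotc, -, -, -, -⟩ := id hBD4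
  obtain ⟨hsymm, -, htrans⟩ := hPN2 Γ hΓ S
  obtain ⟨hrotH, -, -, -, -, -, -⟩ := hHX1 Γ hΓ S
  have m1 : HexMove Γ (p, q, r) (q, r, p) := Or.inl rfl
  have m2 : HexMove Γ (q, r, p) (r, p, q) := Or.inl rfl
  have hqr := hrotH _ _ _ hex
  have hrp := hrotH _ _ _ hqr
  have hqs' : q ≠ s := by
    rintro rfl
    exact hcon _ _ (Relation.ReflTransGen.refl.tail m1)
  have hrs' : r ≠ s := by
    rintro rfl
    exact hcon _ _ ((Relation.ReflTransGen.refl.tail m1).tail m2)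
  have hqs : S.CoPl q s := htrans _ _ _ hex.1 hps hqs'
  have hrs : S.CoPl r s := htrans _ _ _ (hsymm _ _ hex.2.2.1) hps hrs'
  have hno1 : ∀ u v, ¬ HexConn Γ (q, r, p) (s, u, v) := fun u v h =>
    hcon u v (Relation.ReflTransGen.head m1 h)
  have hno2 : ∀ u v, ¬ HexConn Γ (r, p, q) (s, u, v) := fun u v h =>
    hno1 u v (Relation.ReflTransGen.head m2 h)
  -- position of `s`
  obtain ⟨φ, -, hinj, hord, hcyc, hdeg⟩ := hBD3 p.1
  have hqp : q.1 ≠ p.1 := (hdist _ _ _ hex.2.2.2.1).1.symm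
  have hrp1 : r.1 ≠ p.1 := (hdist _ _ _ hex.2.2.2.1).2.2
  have hsp : s.1 ≠ p.1 := (hdist _ _ _ hps.2.2.1.1).2.2
  have hsq : s.1 ≠ q.1 := (hdist _ _ _ hqs.2.2.1.1).2.2
  have hsr : s.1 ≠ r.1 := (hdist _ _ _ hrs.2.2.1.1).2.2
  have hφ : φ q.1 < φ r.1 := (hord _ _ hqp hrp1).1 hex.2.2.2.1
  rcases lt_trichotomy (φ s.1) (φ q.1) with h | h | h
  · exact CLL_main hBD2 hBD4 hBD6 hBD7 hGM1 hPN2 hHX1 hΓ S p q r s hex hps hqs hrs
      ((hord _ _ hsp hqp).2 h) hcon
  · exact hsq (hinj _ _ hsp hqp h)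
  · rcases lt_trichotomy (φ s.1) (φ r.1) with h' | h' | h'
    · exact CLL_main hBD2 hBD4 hBD6 hBD7 hGM1 hPN2 hHX1 hΓ S q r p s hqr hqs hrs hps
        ((hcyc _ _ _ hqp hsp hrp1).2 (Or.inl ⟨h, h'⟩)) hno1
    · exact hsr (hinj _ _ hsp hrp1 h')
    · have h1 : Cyc p.1 r.1 s.1 := (hord _ _ hrp1 hsp).2 h'
      exact CLL_main hBD2 hBD4 hBD6 hBD7 hGM1 hPN2 hHX1 hΓ S r p q s hrp hrs hps hqs
        (hrotc _ _ _ h1) hno2

end

end AdSBend
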