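import Pool.Agent.helper69.AD.GS3

/-!
Module HX5 of the project ad (MP_a29257_gt): positions of the co-plaque leaves with respect to
the neighbours of a leaf.
-/

open scoped MatrixGroups LinearAlgebra.Projectivization
open Matrix UpperHalfPlane

namespace AdSBend

noncomputable section

open LeafSystem

/-- the sequence of the neighbour pairs -/
def HX5_seq (g : SL(2, ℝ)) (x y : Bd × Bd) : ℕ → (Bd × Bd) × (Bd × Bd)
  | 0 => (x, y)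
  | n + 1 => ((HX5_seq g x y n).2, ga g (HX5_seq g x y n).1)

theorem HX5_seq_even (g : SL(2, ℝ)) (x y : Bd × Bd) (n : ℕ) :
    HX5_seq g x y (2 * n) = (ga (g ^ n) x, ga (g ^ n) y) := by
  induction n with
  | zero => simp [HX5_seq, ga]
  | succ n ih =>
    have e : 2 * (n + 1) = (2 * n + 1) + 1 := by ring
    rw [e, HX5_seq, HX5_seq, ih]
    simp only [ga, pow_succ', mul_smul]

theorem HX5_back {Γ : Subgroup SL(2, ℝ)} {S : LeafSystem Γ} {p x y : Bd × Bd}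
    (h3 : ∀ p q r, S.Hex p q r → S.Hex p (ga (gen Γ p)⁻¹ r) q) (hx : S.Hex p x y) (m : ℕ) :
    S.Hex p (ga ((gen Γ p)⁻¹ ^ m) x) (ga ((gen Γ p)⁻¹ ^ m) y) ∧
      HexConn Γ (p, x, y) (p, ga ((gen Γ p)⁻¹ ^ m) x, ga ((gen Γ p)⁻¹ ^ m) y) := by
  induction m with
  | zero =>
    constructor
    · simpa [ga] using hx
    · have : (p, ga ((gen Γ p)⁻¹ ^ 0) x, ga ((gen Γ p)⁻¹ ^ 0) y) = (p, x, y) := by
        simp [ga]
      rw [this]
      exact Relation.ReflTransGen.refl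
  | succ m ih =>
    obtain ⟨ih1, ih2⟩ := ih
    have a1 := h3 _ _ _ ih1
    have a2 := h3 _ _ _ a1
    have e1 : ga (gen Γ p)⁻¹ (ga ((gen Γ p)⁻¹ ^ m) x) = ga ((gen Γ p)⁻¹ ^ (m + 1)) x := by
      simp only [ga, pow_succ', mul_smul]
    have e2 : ga (gen Γ p)⁻¹ (ga ((gen Γ p)⁻¹ ^ m) y) = ga ((gen Γ p)⁻¹ ^ (m + 1)) y := by
      simp only [ga, pow_succ', mul_smul]
    rw [e1, e2] at a2
    refine ⟨a2, ?_⟩
    have m1 : HexMove Γ (p, ga ((gen Γ p)⁻¹ ^ m) x, ga ((gen Γ p)⁻¹ ^ m) y)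
        (p, ga ((gen Γ p)⁻¹ ^ (m + 1)) y, ga ((gen Γ p)⁻¹ ^ m) x) := by
      right; right
      rw [← e2]
    have m2 : HexMove Γ (p, ga ((gen Γ p)⁻¹ ^ (m + 1)) y, ga ((gen Γ p)⁻¹ ^ m) x)
        (p, ga ((gen Γ p)⁻¹ ^ (m + 1)) x, ga ((gen Γ p)⁻¹ ^ (m + 1)) y) := by
      right; right
      rw [← e1]
    exact (ih2.tail m1).tail m2

/-- HX5: positions of the co-plaque leaves with respect to the neighbours of `p` -/
theorem HX5 (hBD3 : BD3_stmt) (hGM1 : GM1_stmt) (hGM3 : GM3_stmt) (hGM7 : GM7_stmt)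
    (hHX1 : HX1_stmt) : HX5_stmt := by
  intro Γ hΓ S p x y hx s hs
  obtain ⟨-, hfwd, hbwd, -, -, -, -⟩ := hHX1 Γ hΓ S
  have hp : p ∈ S.L := hs.1
  have hgen := hGM1 Γ hΓ p (S.closed p hp)
  set g := gen Γ p with hg
  have hatt : Attracts g p := hgen.2.1
  have hsF : Facing p s := hs.2.2.1
  obtain ⟨φ, -, hinj, hord, hcyc, hdeg⟩ := hBD3 p.1
  -- points of the interval from `p.2` to `p.1`
  have hin : ∀ c, Cyc p.1 p.2 c → c ≠ p.1 ∧ φ p.2 < φ c := by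
    intro c hc
    have hp2 : p.2 ≠ p.1 := hatt.1.symm
    have hcp : c ≠ p.1 := by
      rintro rfl
      exact (hdeg p.2 p.2).2.1 hc
    exact ⟨hcp, (hord p.2 c hp2 hcp).1 hc⟩
  have hp2 : p.2 ≠ p.1 := hatt.1.symm
  have hs1 := hin s.1 hsF.1
  have hcmp : ∀ a b, Cyc p.1 p.2 a → Cyc p.1 p.2 b → Cyc p.2 a b → φ a < φ b := by
    intro a b ha hb hab
    obtain ⟨ha1, ha2⟩ := hin a ha
    obtain ⟨hb1, hb2⟩ := hin b hb
    rcases (hcyc p.2 a b hp2 ha1 hb1).1 hab with h | h | h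
    · exact h.2
    · exact h.1
    · linarith [h.1, h.2]
  -- first coordinates of the neighbours
  have hxF : ∀ u v, S.Hex p u v → Cyc p.1 p.2 u.1 := fun u v h => h.1.2.2.1.1
  have hyF : ∀ u v, S.Hex p u v → u.1 ≠ p.1 ∧ v.1 ≠ p.1 ∧ φ u.1 < φ v.1 := by
    intro u v h
    have h1 : Cyc p.1 u.1 v.1 := h.2.2.2.1
    have hu : u.1 ≠ p.1 := (hin _ (hxF u v h)).1
    have hv : v.1 ≠ p.1 := by
      intro hv
      rw [hv] at h1
      exact (hdeg u.1 u.1).2.1 h1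
    exact ⟨hu, hv, (hord _ _ hu hv).1 h1⟩
  have hrot : ∀ a, Cyc p.1 p.2 a → Cyc p.2 a p.1 := by
    intro a ha
    exact ((hdeg p.2 a).2.2.2.1).2 ha
  -- go back far enough
  obtain ⟨-, ⟨m, hm⟩, -, -⟩ := hGM7 g p x.1 s.1 hatt (hrot _ (hxF x y hx)) (hrot _ hsF.1)
  obtain ⟨hb1, hb2⟩ := HX5_back hbwd hx m
  rw [← hg] at hb1 hb2
  set x₀ := ga (g⁻¹ ^ m) x with hx₀
  set y₀ := ga (g⁻¹ ^ m) y with hy₀
  have hx0s : φ x₀.1 < φ s.1 := hcmp _ _ (hxF _ _ hb1) hsF.1 hm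
  -- go forward
  have hseq : ∀ n, S.Hex p (HX5_seq g x₀ y₀ n).1 (HX5_seq g x₀ y₀ n).2 ∧
      HexConn Γ (p, x, y) (p, (HX5_seq g x₀ y₀ n).1, (HX5_seq g x₀ y₀ n).2) := by
    intro n
    induction n with
    | zero => exact ⟨hb1, hb2⟩
    | succ n ih =>
      refine ⟨hfwd _ _ _ ih.1, ih.2.tail ?_⟩
      right; left
      rfl
  obtain ⟨⟨n, hn⟩, -, -, -⟩ := hGM7 g p x₀.1 s.1 hatt (hrot _ (hxF _ _ hb1)) (hrot _ hsF.1)
  have hn2 : φ s.1 < φ (HX5_seq g x₀ y₀ (2 * n)).1.1 := by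
    have h1 := hseq (2 * n)
    rw [HX5_seq_even] at h1 ⊢
    exact hcmp _ _ hsF.1 (hxF _ _ h1.1) hn
  classical
  have hex : ∃ k, φ s.1 < φ (HX5_seq g x₀ y₀ k).1.1 := ⟨_, hn2⟩
  set k := Nat.find hex with hk
  have hk1 : φ s.1 < φ (HX5_seq g x₀ y₀ k).1.1 := Nat.find_spec hex
  have hk0 : k ≠ 0 := by
    intro h0
    rw [h0] at hk1
    have : φ s.1 < φ x₀.1 := hk1
    linarith
  obtain ⟨j, hj⟩ := Nat.exists_eq_succ_of_ne_zero hk0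
  have hj1 : ¬ φ s.1 < φ (HX5_seq g x₀ y₀ j).1.1 := Nat.find_min hex (by omega)
  push Not at hj1
  have hj2 : φ s.1 < φ (HX5_seq g x₀ y₀ j).2.1 := by
    rw [hj] at hk1
    exact hk1
  obtain ⟨hh1, hh2⟩ := hseq j
  refine ⟨_, _, hh1, hh2, ?_⟩
  obtain ⟨c1, c2, c3⟩ := hyF _ _ hh1
  rcases hj1.lt_or_eq with h | h
  · right
    exact (hcyc _ _ _ c1 hs1.1 c2).2 (Or.inl ⟨h, hj2⟩)
  · left
    have e1 : (HX5_seq g x₀ y₀ j).1.1 = s.1 := hinj _ _ c1 hs1.1 h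
    have hL : (HX5_seq g x₀ y₀ j).1 ∈ S.L := hh1.1.2.1
    have h5 := S.closed _ hL
    have h6 := S.closed _ hs.2.1
    rw [e1] at h5
    have h7 := hGM3 Γ hΓ _ _ _ h5 h6
    exact (Prod.ext e1 h7).symm

end

end AdSBend
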